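import Pool.Agent.E8helper19.PM.Stm

set_option autoImplicit false
open MeasureTheory Filter Topology Set
open scoped ContDiff ENNReal Real InnerProductSpace Manifold

namespace Pool.Agent.E8helper38.PMC

open Pool.Agent.E8helper19.PM

lemma pd_congr {f g : E → ℂ} {y : E} (h : f =ᶠ[𝓝 y] g) (j : Fin 3) : pd j f y = pd j g y := by
  unfold pd
  rw [h.fderiv_eq]

lemma pd_sub {f g : E → ℂ} {y : E} (hf : DifferentiableAt ℝ f y) (hg : DifferentiableAt ℝ g y)
    (j : Fin 3) : pd j (fun z => f z - g z) y = pd j f y - pd j g y := by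
  unfold pd
  rw [fderiv_fun_sub hf hg]
  rfl

lemma pd_add {f g : E → ℂ} {y : E} (hf : DifferentiableAt ℝ f y) (hg : DifferentiableAt ℝ g y)
    (j : Fin 3) : pd j (fun z => f z + g z) y = pd j f y + pd j g y := by
  unfold pd
  rw [fderiv_fun_add hf hg]
  rfl

lemma pd_mul {f g : E → ℂ} {y : E} (hf : DifferentiableAt ℝ f y) (hg : DifferentiableAt ℝ g y)
    (j : Fin 3) : pd j (fun z => f z * g z) y = f y * pd j g y + g y * pd j f y := by
  unfold pd
  rw [fderiv_fun_mul hf hg]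
  simp

lemma pd_smooth {w : E → ℂ} {Ω : Set E} (hΩ : IsOpen Ω) (hw : ContDiffOn ℝ ∞ w Ω) (j : Fin 3) :
    ContDiffOn ℝ ∞ (pd j w) Ω := by
  unfold pd
  exact (hw.fderiv_of_isOpen hΩ (m := ∞) (by simp)).clm_apply contDiffOn_const

lemma diffAt {w : E → ℂ} {Ω : Set E} (hΩ : IsOpen Ω) (hw : ContDiffOn ℝ ∞ w Ω) {y : E}
    (hy : y ∈ Ω) : DifferentiableAt ℝ w y :=
  (hw.contDiffAt (hΩ.mem_nhds hy)).differentiableAt (by simp)

lemma lap_mul {χ w : E → ℂ} {Ω : Set E} (hΩ : IsOpen Ω) (hχ : ContDiffOn ℝ ∞ χ Ω)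
    (hw : ContDiffOn ℝ ∞ w Ω) {y : E} (hy : y ∈ Ω) :
    lap (fun z => χ z * w z) y =
      lap χ y * w y + 2 * (∑ j : Fin 3, pd j χ y * pd j w y) + χ y * lap w y := by
  unfold lap
  have e : ∀ j : Fin 3, pd j (pd j (fun z => χ z * w z)) y =
      pd j (pd j χ) y * w y + 2 * (pd j χ y * pd j w y) + χ y * pd j (pd j w) y := by
    intro j
    have h1 : (pd j (fun z => χ z * w z)) =ᶠ[𝓝 y] fun z => χ z * pd j w z + w z * pd j χ z := by
      filter_upwards [hΩ.mem_nhds hy] with z hz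
      exact pd_mul (diffAt hΩ hχ hz) (diffAt hΩ hw hz) j
    rw [pd_congr h1]
    have d1 := diffAt hΩ hχ hy
    have d2 := diffAt hΩ hw hy
    have d3 := diffAt hΩ (pd_smooth hΩ hχ j) hy
    have d4 := diffAt hΩ (pd_smooth hΩ hw j) hy
    rw [pd_add (d1.fun_mul d4) (d2.fun_mul d3), pd_mul d1 d4, pd_mul d2 d3]
    ring
  simp_rw [e]
  rw [Finset.sum_add_distrib, Finset.sum_add_distrib, ← Finset.sum_mul, ← Finset.mul_sum,
    ← Finset.mul_sum]

lemma lap_sub {f g : E → ℂ} {Ω : Set E} (hΩ : IsOpen Ω) (hf : ContDiffOn ℝ ∞ f Ω)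
    (hg : ContDiffOn ℝ ∞ g Ω) {y : E} (hy : y ∈ Ω) :
    lap (fun z => f z - g z) y = lap f y - lap g y := by
  unfold lap
  rw [← Finset.sum_sub_distrib]
  refine Finset.sum_congr rfl fun j _ => ?_
  have h1 : (pd j (fun z => f z - g z)) =ᶠ[𝓝 y] fun z => pd j f z - pd j g z := by
    filter_upwards [hΩ.mem_nhds hy] with z hz
    exact pd_sub (diffAt hΩ hf hz) (diffAt hΩ hg hz) j
  rw [pd_congr h1]
  exact pd_sub (diffAt hΩ (pd_smooth hΩ hf j) hy) (diffAt hΩ (pd_smooth hΩ hg j) hy) j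

lemma gr_sq (w : E → ℂ) (y : E) : ‖gr w y‖ ^ 2 = ∑ j : Fin 3, ‖pd j w y‖ ^ 2 := by
  rw [EuclideanSpace.norm_sq_eq]
  rfl

lemma pd_le (w : E → ℂ) (y : E) (j : Fin 3) : ‖pd j w y‖ ≤ ‖gr w y‖ :=
  PiLp.norm_apply_le (gr w y) j

/-- the energy density -/
noncomputable def Fn (w : E → ℂ) (y : E) : ℝ := ‖w y‖ ^ 2 + ‖gr w y‖ ^ 2

lemma Fn_nonneg (w : E → ℂ) (y : E) : 0 ≤ Fn w y := by unfold Fn; positivity

lemma Fn_cont {w : E → ℂ} {Ω : Set E} (hΩ : IsOpen Ω) (hw : ContDiffOn ℝ ∞ w Ω) :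
    ContinuousOn (Fn w) Ω := by
  unfold Fn
  simp_rw [gr_sq]
  refine (hw.continuousOn.norm.pow 2).add (continuousOn_finsetSum _ fun j _ => ?_)
  exact (pd_smooth hΩ hw j).continuousOn.norm.pow 2

lemma Fn_congr {f g : E → ℂ} {y : E} (h : f =ᶠ[𝓝 y] g) : Fn f y = Fn g y := by
  unfold Fn
  rw [gr_sq, gr_sq, h.eq_of_nhds]
  congr 1
  exact Finset.sum_congr rfl fun j _ => by rw [pd_congr h]

lemma sq_sub_le' (a b : ℂ) : ‖a - b‖ ^ 2 ≤ 2 * ‖a‖ ^ 2 + 2 * ‖b‖ ^ 2 := by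
  have h := norm_sub_le a b
  have h1 : ‖a - b‖ ^ 2 ≤ (‖a‖ + ‖b‖) ^ 2 := pow_le_pow_left₀ (norm_nonneg _) h 2
  nlinarith [sq_nonneg (‖a‖ - ‖b‖)]

lemma Fn_sub_le {f g : E → ℂ} {y : E} (hf : DifferentiableAt ℝ f y) (hg : DifferentiableAt ℝ g y) :
    Fn (fun z => f z - g z) y ≤ 2 * Fn f y + 2 * Fn g y := by
  unfold Fn
  rw [gr_sq, gr_sq, gr_sq]
  have h1 := sq_sub_le' (f y) (g y)
  have h2 : ∑ j : Fin 3, ‖pd j (fun z => f z - g z) y‖ ^ 2 ≤
      2 * (∑ j : Fin 3, ‖pd j f y‖ ^ 2) + 2 * ∑ j : Fin 3, ‖pd j g y‖ ^ 2 := by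
    rw [Finset.mul_sum, Finset.mul_sum, ← Finset.sum_add_distrib]
    refine Finset.sum_le_sum fun j _ => ?_
    rw [pd_sub hf hg]
    exact sq_sub_le' _ _
  linarith

lemma smooth_mul {χ w : E → ℂ} {Ω K : Set E} (hΩ : IsOpen Ω) (hχ : ContDiff ℝ ∞ χ)
    (hw : ContDiffOn ℝ ∞ w Ω) (hK : IsCompact K) (hKΩ : K ⊆ Ω) (h0 : ∀ y ∉ K, χ y = 0) :
    ContDiff ℝ ∞ (fun z => χ z * w z) ∧ HasCompactSupport (fun z => χ z * w z) ∧
      tsupport (fun z => χ z * w z) ⊆ K := by
  have hts : tsupport χ ⊆ K := by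
    refine closure_minimal ?_ hK.isClosed
    intro y hy
    by_contra h
    exact hy (h0 y h)
  have hts2 : tsupport (fun z => χ z * w z) ⊆ K :=
    (closure_mono (fun y hy => left_ne_zero_of_mul hy)).trans hts
  refine ⟨?_, hK.of_isClosed_subset (isClosed_tsupport _) hts2, hts2⟩
  rw [contDiff_iff_contDiffAt]
  intro y
  by_cases hy : y ∈ Ω
  · exact hχ.contDiffAt.mul (hw.contDiffAt (hΩ.mem_nhds hy))
  · have hyK : y ∉ K := fun h => hy (hKΩ h)
    have : (fun z => χ z * w z) =ᶠ[𝓝 y] fun _ => 0 := by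
      filter_upwards [hK.isClosed.isOpen_compl.mem_nhds hyK] with z hz
      rw [h0 z hz, zero_mul]
    exact contDiffAt_const.congr_of_eventuallyEq this

lemma bounded_of {g : E → ℂ} {K : Set E} (hg : Continuous g) (hK : IsCompact K)
    (h0 : ∀ y ∉ K, g y = 0) : ∃ M : ℝ, ∀ y, ‖g y‖ ≤ M := by
  obtain ⟨M, hM⟩ := (hK.image_of_continuousOn hg.norm.continuousOn).isBounded.bddAbove
  refine ⟨max M 0, fun y => ?_⟩
  by_cases hy : y ∈ K
  · exact (hM ⟨y, hy, rfl⟩).trans (le_max_left _ _)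
  · rw [h0 y hy, norm_zero]
    exact le_max_right _ _

/-- the main estimate -/
lemma cut_est (h : S_APR) {k : ℝ} (hk : 0 < k) {Ω : Set E} (hΩ : IsOpen Ω)
    (hb : Bornology.IsBounded Ω) {χ : E → ℂ} (hχ : ContDiff ℝ ∞ χ) {K W : Set E}
    (hK : IsCompact K) (hKΩ : K ⊆ Ω) (h0 : ∀ y ∉ K, χ y = 0) (hW : IsOpen W)
    (h1 : ∀ y ∈ W, χ y = 1) :
    ∃ C : ℝ, 0 ≤ C ∧ ∀ w : E → ℂ, ContDiffOn ℝ ∞ w Ω →
      (∀ y ∈ Ω, lap w y = -((k ^ 2 : ℝ) : ℂ) * w y) →
      H1 univ (fun z => χ z * w z) ≤ C * H1 (K \ W) w := by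
  obtain ⟨R, hR⟩ := hb.subset_ball (0 : E)
  obtain ⟨C0, hC0⟩ := h k (max R 1) hk (lt_of_lt_of_le one_pos (le_max_right _ _))
  have hΩR : Ω ⊆ Metric.ball 0 (max R 1) := hR.trans (Metric.ball_subset_ball (le_max_left _ _))
  have hχ' : ContDiffOn ℝ ∞ χ univ := hχ.contDiffOn
  have hpdc : ∀ j, Continuous (pd j χ) := fun j => by
    have := (pd_smooth isOpen_univ hχ' j).continuousOn
    rwa [← continuousOn_univ]
  have hlapc : Continuous (lap χ) := by
    unfold lap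
    refine continuous_finsetSum _ fun j _ => ?_
    have := (pd_smooth isOpen_univ (pd_smooth isOpen_univ hχ' j) j).continuousOn
    rwa [← continuousOn_univ]
  -- derivatives vanish off `K` and on `W`
  have hloc0 : ∀ y ∉ K, χ =ᶠ[𝓝 y] fun _ => 0 := by
    intro y hy
    filter_upwards [hK.isClosed.isOpen_compl.mem_nhds hy] with z hz
    exact h0 z hz
  have hconst : ∀ (c : ℂ) (U : Set E), IsOpen U → (∀ z ∈ U, χ z = c) → ∀ y ∈ U,
      (∀ j, pd j χ y = 0) ∧ lap χ y = 0 := by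
    intro c U hU hc y hy
    have e1 : ∀ z ∈ U, ∀ j, pd j χ z = 0 := by
      intro z hz j
      have : χ =ᶠ[𝓝 z] fun _ => c := by
        filter_upwards [hU.mem_nhds hz] with z' hz'
        exact hc z' hz'
      rw [pd_congr this]
      unfold pd
      simp
    refine ⟨e1 y hy, ?_⟩
    unfold lap
    refine Finset.sum_eq_zero fun j _ => ?_
    have : (pd j χ) =ᶠ[𝓝 y] fun _ => 0 := by
      filter_upwards [hU.mem_nhds hy] with z' hz'
      exact e1 z' hz' j
    rw [pd_congr this]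
    unfold pd
    simp
  have hoff := hconst 0 Kᶜ hK.isClosed.isOpen_compl (fun z hz => h0 z hz)
  have hon := hconst 1 W hW h1
  obtain ⟨M1, hM1⟩ : ∃ M : ℝ, ∀ j y, ‖pd j χ y‖ ≤ M := by
    choose M hM using fun j => bounded_of (hpdc j) hK (fun y hy => (hoff y hy).1 j)
    refine ⟨∑ j, |M j|, fun j y => (hM j y).trans ((le_abs_self _).trans ?_)⟩
    exact Finset.single_le_sum (f := fun j => |M j|) (fun _ _ => abs_nonneg _) (Finset.mem_univ j)
  obtain ⟨M2, hM2⟩ := bounded_of hlapc hK (fun y hy => (hoff y hy).2)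
  set M := max M1 M2 with hMdef
  have hM0 : 0 ≤ M := (norm_nonneg _).trans ((hM2 0).trans (le_max_right _ _))
  refine ⟨|C0| * (72 * M ^ 2), by positivity, fun w hw hwe => ?_⟩
  obtain ⟨g1, g2, g3⟩ := smooth_mul hΩ hχ hw hK hKΩ h0
  set f : E → ℂ := fun z => χ z * w z with hf
  have hT : Tst (Metric.ball 0 (max R 1)) f := ⟨g1, g2, g3.trans (hKΩ.trans hΩR)⟩
  have hmain := hC0 f hT
  have hon2 : ∀ y ∈ Ω, lap f y + ((k ^ 2 : ℝ) : ℂ) * f y =
      lap χ y * w y + 2 * (∑ j : Fin 3, pd j χ y * pd j w y) := by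
    intro y hy
    rw [hf, lap_mul hΩ hχ.contDiffOn hw hy, hwe y hy]
    ring
  have hz : ∀ y, y ∉ K \ W → ‖lap f y + ((k ^ 2 : ℝ) : ℂ) * f y‖ ^ 2 = 0 := by
    intro y hy
    by_cases hyK : y ∈ K
    · have hyW : y ∈ W := by
        by_contra hc
        exact hy ⟨hyK, hc⟩
      rw [hon2 y (hKΩ hyK), (hon y hyW).2]
      simp [(hon y hyW).1]
    · have e1 : f =ᶠ[𝓝 y] fun _ => 0 := by
        filter_upwards [hloc0 y hyK] with z hz
        rw [hf]
        simp only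
        rw [hz, zero_mul]
      have e2 : lap f y = 0 := by
        unfold lap
        refine Finset.sum_eq_zero fun j _ => ?_
        have : (pd j f) =ᶠ[𝓝 y] fun _ => 0 := by
          filter_upwards [e1.eventually_nhds] with z hz
          rw [pd_congr hz]
          unfold pd
          simp
        rw [pd_congr this]
        unfold pd
        simp
      rw [e2, e1.eq_of_nhds]
      simp
  have hKm : MeasurableSet (K \ W) := hK.measurableSet.diff hW.measurableSet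
  have hint : IntegrableOn (Fn w) (K \ W) :=
    (((Fn_cont hΩ hw).mono hKΩ).integrableOn_compact hK).mono_set sdiff_subset
  have hle : ∫ y, ‖lap f y + ((k ^ 2 : ℝ) : ℂ) * f y‖ ^ 2 ≤ 72 * M ^ 2 * H1 (K \ W) w := by
    rw [← setIntegral_eq_integral_of_forall_compl_eq_zero (s := K \ W) (fun y hy => hz y hy)]
    unfold H1
    rw [← integral_const_mul]
    refine integral_mono_of_nonneg (Eventually.of_forall fun y => by positivity)
      (hint.const_mul _) ?_
    filter_upwards [ae_restrict_mem hKm] with y hy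
    rw [hon2 y (hKΩ hy.1)]
    have b1 : ‖lap χ y * w y + 2 * (∑ j : Fin 3, pd j χ y * pd j w y)‖ ≤
        M * ‖w y‖ + 6 * M * ‖gr w y‖ := by
      refine (norm_add_le _ _).trans (add_le_add ?_ ?_)
      · rw [norm_mul]
        exact mul_le_mul_of_nonneg_right ((hM2 y).trans (le_max_right _ _)) (norm_nonneg _)
      · rw [norm_mul]
        have b2 : ‖∑ j : Fin 3, pd j χ y * pd j w y‖ ≤ ∑ j : Fin 3, M * ‖gr w y‖ := by
          refine (norm_sum_le _ _).trans (Finset.sum_le_sum fun j _ => ?_)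
          rw [norm_mul]
          exact mul_le_mul ((hM1 j y).trans (le_max_left _ _)) (pd_le w y j) (norm_nonneg _) hM0
        rw [Finset.sum_const, Finset.card_univ, Fintype.card_fin, nsmul_eq_mul] at b2
        have b3 : ‖(2 : ℂ)‖ = 2 := by simp
        rw [b3]
        push_cast at b2
        linarith
    have b4 := pow_le_pow_left₀ (norm_nonneg _) b1 2
    show _ ≤ 72 * M ^ 2 * (‖w y‖ ^ 2 + ‖gr w y‖ ^ 2)
    have b5 : (M * ‖w y‖ + 6 * M * ‖gr w y‖) ^ 2 ≤ 72 * M ^ 2 * (‖w y‖ ^ 2 + ‖gr w y‖ ^ 2) := by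
      have := mul_nonneg (sq_nonneg M) (sq_nonneg (‖w y‖ - 6 * ‖gr w y‖))
      have := mul_nonneg (sq_nonneg M) (sq_nonneg (‖w y‖))
      nlinarith
    exact b4.trans b5
  have hI0 : 0 ≤ ∫ y, ‖lap f y + ((k ^ 2 : ℝ) : ℂ) * f y‖ ^ 2 :=
    integral_nonneg fun y => by positivity
  calc H1 univ f ≤ C0 * ∫ y, ‖lap f y + ((k ^ 2 : ℝ) : ℂ) * f y‖ ^ 2 := hmain
    _ ≤ |C0| * ∫ y, ‖lap f y + ((k ^ 2 : ℝ) : ℂ) * f y‖ ^ 2 :=
        mul_le_mul_of_nonneg_right (le_abs_self _) hI0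
    _ ≤ |C0| * (72 * M ^ 2 * H1 (K \ W) w) := mul_le_mul_of_nonneg_left hle (abs_nonneg _)
    _ = _ := by ring

lemma H1_mono {w : E → ℂ} {U V : Set E} (hUV : U ⊆ V) (hi : IntegrableOn (Fn w) V) :
    H1 U w ≤ H1 V w :=
  setIntegral_mono_set hi (Eventually.of_forall fun y => Fn_nonneg w y) hUV.eventuallyLE

lemma H1_nonneg (w : E → ℂ) (U : Set E) : 0 ≤ H1 U w := integral_nonneg fun y => Fn_nonneg w y

/-- the energy of a difference -/
lemma H1_sub {f g : E → ℂ} {O U : Set E} (hO : IsOpen O) (hf : ContDiffOn ℝ ∞ f O)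
    (hg : ContDiffOn ℝ ∞ g O) (hU : MeasurableSet U) (hUO : U ⊆ O) (hif : IntegrableOn (Fn f) U)
    (hig : IntegrableOn (Fn g) U) :
    H1 U (fun z => f z - g z) ≤ 2 * H1 U f + 2 * H1 U g := by
  show ∫ y in U, Fn (fun z => f z - g z) y ≤ 2 * (∫ y in U, Fn f y) + 2 * ∫ y in U, Fn g y
  rw [← integral_const_mul, ← integral_const_mul, ← integral_add (hif.const_mul 2) (hig.const_mul 2)]
  refine integral_mono_of_nonneg (Eventually.of_forall fun y => Fn_nonneg _ y)
    ((hif.const_mul 2).add (hig.const_mul 2)) ?_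
  filter_upwards [ae_restrict_mem hU] with y hy
  exact Fn_sub_le (diffAt hO hf (hUO hy)) (diffAt hO hg (hUO hy))

lemma intOn {w : E → ℂ} {O K U : Set E} (hO : IsOpen O) (hw : ContDiffOn ℝ ∞ w O)
    (hK : IsCompact K) (hKO : K ⊆ O) (hUK : U ⊆ K) : IntegrableOn (Fn w) U :=
  (((Fn_cont hO hw).mono hKO).integrableOn_compact hK).mono_set hUK

theorem t_CUT (h : S_APR) : S_CUT := by
  intro k Ω G x σ v t r hk hΩ hΩb hG hx hσ hv ht0 ht1 hr hcb hxcb hlim
  -- times
  obtain ⟨t1, t2, h01, h1t, ht2, h21, hball⟩ : ∃ t1 t2 : ℝ, 0 < t1 ∧ t1 < t ∧ t < t2 ∧ t2 < 1 ∧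
      ∀ s ∈ Icc t1 t2, σ s ∈ Metric.ball (σ t) r := by
    have hc := hσ.cont.continuousAt (Icc_mem_nhds ht0 ht1)
    obtain ⟨δ, hδ, hδ'⟩ := Metric.continuousAt_iff.1 hc r hr
    refine ⟨max (t / 2) (t - δ / 2), min ((t + 1) / 2) (t + δ / 2), ?_, ?_, ?_, ?_, ?_⟩
    · exact lt_of_lt_of_le (by linarith) (le_max_left _ _)
    · exact max_lt (by linarith) (by linarith)
    · exact lt_min (by linarith) (by linarith)
    · exact lt_of_le_of_lt (min_le_left _ _) (by linarith)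
    · intro s hs
      have h1 := (le_max_right _ _).trans hs.1
      have h2 := hs.2.trans (min_le_right _ _)
      apply hδ'
      rw [Real.dist_eq, abs_lt]
      constructor <;> linarith
  set A := σ '' Icc 0 t1 with hA
  set B := σ '' Icc t2 1 with hB
  have hAc : IsCompact A := isCompact_Icc.image_of_continuousOn
    (hσ.cont.mono (Icc_subset_Icc_right (by linarith)))
  have hBc : IsCompact B := isCompact_Icc.image_of_continuousOn
    (hσ.cont.mono (Icc_subset_Icc_left (by linarith)))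
  have hAB : ∀ y ∈ B, y ∉ A := by
    rintro y ⟨s, hs, rfl⟩ ⟨s', hs', he⟩
    have := hσ.inj ⟨hs'.1, by linarith [hs'.2]⟩ ⟨by linarith [hs.1], hs.2⟩ he
    linarith [hs.1, hs'.2]
  have hBΩ : B ⊆ Ω := by
    rintro y ⟨s, hs, rfl⟩
    rcases eq_or_lt_of_le hs.2 with h1 | h1
    · rw [h1, hσ.fin]; exact hx
    · exact hσ.mem s (by linarith [hs.1]) h1
  have hxB : x ∈ B := ⟨1, ⟨by linarith, le_rfl⟩, hσ.fin⟩
  -- the cutoff function
  have hO : IsOpen (Ω ∩ Aᶜ) := hΩ.inter hAc.isClosed.isOpen_compl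
  obtain ⟨δ, hδ, hδO⟩ := hBc.exists_cthickening_subset_open hO (fun y hy => ⟨hBΩ hy, hAB y hy⟩)
  set K := Metric.cthickening δ B with hK
  have hKc : IsCompact K := hBc.cthickening
  have hKΩ : K ⊆ Ω := fun y hy => (hδO hy).1
  have hBK : B ⊆ interior K := by
    have h1 : Metric.thickening δ B ⊆ interior K :=
      interior_maximal (Metric.thickening_subset_cthickening δ B) Metric.isOpen_thickening
    exact (Metric.self_subset_thickening hδ B).trans h1
  obtain ⟨χ0, hχ1, hχ0, -⟩ := exists_contMDiffMap_one_nhds_of_subset_interior (n := (⊤ : ℕ∞))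
    (𝓘(ℝ, E)) hBc.isClosed hBK
  obtain ⟨W, hW, hBW, hW1⟩ := eventually_nhdsSet_iff_exists.1 hχ1
  set χ : E → ℂ := fun y => ((χ0 y : ℝ) : ℂ) with hχ
  have hχs : ContDiff ℝ ∞ χ := Complex.ofRealCLM.contDiff.comp χ0.contMDiff.contDiff
  obtain ⟨C1, hC1, hest⟩ := cut_est h hk hΩ hΩb hχs hKc hKΩ (fun y hy => by
    rw [hχ]; simp only; rw [hχ0 y hy]; simp) hW (fun y hy => by
    rw [hχ]; simp only; rw [hW1 y hy]; simp)
  set K' := K \ W with hK'
  set K2 := K' \ Metric.ball (σ t) r with hK2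
  have hK'c : IsCompact K' := hKc.diff hW
  have hK2c : IsCompact K2 := hK'c.diff Metric.isOpen_ball
  have hK2Ω : K2 ⊆ Ω \ σ '' Icc 0 1 := by
    rintro y ⟨⟨hyK, hyW⟩, hyb⟩
    refine ⟨hKΩ hyK, ?_⟩
    rintro ⟨s, hs, rfl⟩
    rcases le_or_gt s t1 with h1 | h1
    · exact (hδO hyK).2 ⟨s, ⟨hs.1, h1⟩, rfl⟩
    rcases le_or_gt t2 s with h3 | h3
    · exact hyW (hBW ⟨s, ⟨h3, hs.2⟩, rfl⟩)
    · exact hyb (hball s ⟨h1.le, h3.le⟩)
  have hxW : x ∈ W := hBW hxB
  -- smoothness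
  have hvs : ∀ n, ContDiffOn ℝ ∞ (v n) Ω := fun n => (hv.sol n).smooth
  have hGs : ContDiffOn ℝ ∞ (fun y => G (y - x)) (Ω ∩ {x}ᶜ) := by
    refine hG.smooth.comp (contDiff_id.sub contDiff_const).contDiffOn ?_
    intro y hy
    exact fun h0 => hy.2 (sub_eq_zero.1 h0)
  have hOx : IsOpen (Ω ∩ {x}ᶜ) := hΩ.inter isOpen_compl_singleton
  set P : ℕ → E → ℂ := fun n y => v n y - G (y - x) with hP
  have hPs : ∀ n, ContDiffOn ℝ ∞ (P n) (Ω ∩ {x}ᶜ) := fun n =>
    ((hvs n).mono inter_subset_left).sub hGs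
  have hK2x : K2 ⊆ Ω ∩ {x}ᶜ := fun y hy => ⟨(hK2Ω hy).1, fun hyx => hy.1.2 (hyx ▸ hxW)⟩
  have hcbx : Metric.closedBall (σ t) r ⊆ Ω ∩ {x}ᶜ := fun y hy =>
    ⟨hcb hy, fun hyx => hxcb (hyx ▸ hy)⟩
  have hcbc : IsCompact (Metric.closedBall (σ t) r) := isCompact_closedBall _ _
  have hwP : ∀ n m, (fun y => v n y - v m y) = fun y => P n y - P m y := by
    intro n m
    funext y
    simp only [hP]
    ring
  have hpart : ∀ U Kc : Set E, MeasurableSet U → IsCompact Kc → Kc ⊆ Ω ∩ {x}ᶜ → U ⊆ Kc → ∀ n m,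
      H1 U (fun y => v n y - v m y) ≤ 2 * H1 U (P n) + 2 * H1 U (P m) := by
    intro U Kc hU hKc' hKx hUK n m
    rw [hwP n m]
    exact H1_sub hOx (hPs n) (hPs m) hU (hUK.trans hKx) (intOn hOx (hPs n) hKc' hKx hUK)
      (intOn hOx (hPs m) hKc' hKx hUK)
  have hws : ∀ n m, ContDiffOn ℝ ∞ (fun y => v n y - v m y) Ω := fun n m => (hvs n).sub (hvs m)
  have hK'est : ∀ n m, H1 K' (fun y => v n y - v m y) ≤
      2 * (H1 K2 (P n) + H1 (Metric.ball (σ t) r) (P n)) +
      2 * (H1 K2 (P m) + H1 (Metric.ball (σ t) r) (P m)) := by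
    intro n m
    have i1 : IntegrableOn (Fn (fun y => v n y - v m y)) K2 :=
      intOn hΩ (hws n m) hK2c (hK2x.trans inter_subset_left) subset_rfl
    have i2 : IntegrableOn (Fn (fun y => v n y - v m y)) (Metric.ball (σ t) r) :=
      intOn hΩ (hws n m) hcbc hcb Metric.ball_subset_closedBall
    have hsub : K' ⊆ K2 ∪ Metric.ball (σ t) r := by
      intro y hy
      by_cases hyb : y ∈ Metric.ball (σ t) r
      · exact Or.inr hyb
      · exact Or.inl ⟨hy, hyb⟩
    have e1 := H1_mono hsub (i1.union i2)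
    have e2 : H1 (K2 ∪ Metric.ball (σ t) r) (fun y => v n y - v m y) =
        H1 K2 (fun y => v n y - v m y) + H1 (Metric.ball (σ t) r) (fun y => v n y - v m y) :=
      setIntegral_union (Set.disjoint_left.2 fun y hy => hy.2) measurableSet_ball i1 i2
    have e3 := hpart K2 K2 hK2c.measurableSet hK2c hK2x subset_rfl n m
    have e4 := hpart (Metric.ball (σ t) r) (Metric.closedBall (σ t) r) measurableSet_ball hcbc hcbx
      Metric.ball_subset_closedBall n m
    linarith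
  -- convergence
  have hcv : Tendsto (fun n => H1 K2 (P n) + H1 (Metric.ball (σ t) r) (P n)) atTop (𝓝 0) := by
    have := (hv.conv K2 hK2c hK2Ω).add hlim
    simpa using this
  obtain ⟨N, hN⟩ : ∃ N, ∀ n ≥ N,
      H1 K2 (P n) + H1 (Metric.ball (σ t) r) (P n) ≤ 1 / (4 * (C1 + 1)) := by
    have hpos : (0 : ℝ) < 1 / (4 * (C1 + 1)) := by positivity
    obtain ⟨N, hN⟩ := eventually_atTop.1 (hcv.eventually (gt_mem_nhds hpos))
    exact ⟨N, fun n hn => (hN n hn).le⟩
  -- the ball around `x`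
  obtain ⟨s, hs, hsW⟩ := Metric.nhds_basis_closedBall.mem_iff.1
    ((hW.inter hΩ).mem_nhds ⟨hxW, hx⟩)
  have hsΩ : Metric.closedBall x s ⊆ Ω := fun y hy => (hsW hy).2
  have hcs : IsCompact (Metric.closedBall x s) := isCompact_closedBall _ _
  have hlapw : ∀ n m, ∀ y ∈ Ω, lap (fun y => v n y - v m y) y =
      -((k ^ 2 : ℝ) : ℂ) * (v n y - v m y) := by
    intro n m y hy
    rw [lap_sub hΩ (hvs n) (hvs m) hy, (hv.sol n).eq y hy, (hv.sol m).eq y hy]
    ring
  have hbd : ∀ n ≥ N, ∀ m ≥ N, H1 (Metric.ball x s) (fun y => v n y - v m y) ≤ 1 := by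
    intro n hn m hm
    have e1 := hest _ (hws n m) (hlapw n m)
    have e2 : H1 (Metric.ball x s) (fun y => v n y - v m y) =
        H1 (Metric.ball x s) (fun z => χ z * (v n z - v m z)) := by
      unfold H1
      refine setIntegral_congr_fun measurableSet_ball fun y hy => ?_
      show Fn (fun y => v n y - v m y) y = Fn (fun z => χ z * (v n z - v m z)) y
      refine Fn_congr ?_
      filter_upwards [hW.mem_nhds (hsW (Metric.ball_subset_closedBall hy)).1] with z hz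
      rw [hχ]
      simp only
      rw [hW1 z hz]
      simp
    obtain ⟨g1, g2, g3⟩ := smooth_mul hΩ hχs (hws n m) hKc hKΩ (fun y hy => by
      rw [hχ]; simp only; rw [hχ0 y hy]; simp)
    have hiu : IntegrableOn (Fn (fun z => χ z * (v n z - v m z))) univ := by
      have hc : Continuous (Fn (fun z => χ z * (v n z - v m z))) := by
        rw [← continuousOn_univ]
        exact Fn_cont isOpen_univ g1.contDiffOn
      rw [integrableOn_univ]
      refine hc.integrable_of_hasCompactSupport ?_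
      refine hKc.of_isClosed_subset (isClosed_tsupport _) ?_
      refine closure_minimal ?_ hKc.isClosed
      intro y hy
      by_contra hc'
      apply hy
      have : (fun z => χ z * (v n z - v m z)) =ᶠ[𝓝 y] fun _ => 0 := by
        filter_upwards [hKc.isClosed.isOpen_compl.mem_nhds hc'] with z hz
        rw [hχ]
        simp only
        rw [hχ0 z hz]
        simp
      rw [Fn_congr this]
      unfold Fn
      rw [gr_sq]
      unfold pd
      simp
    have e3 := H1_mono (subset_univ (Metric.ball x s)) hiu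
    have e4 := hK'est n m
    have e5 : H1 K' (fun y => v n y - v m y) ≤ 4 * (1 / (4 * (C1 + 1))) := by
      have := hN n hn
      have := hN m hm
      linarith
    rw [e2]
    calc _ ≤ H1 univ (fun z => χ z * (v n z - v m z)) := e3
      _ ≤ C1 * H1 K' (fun y => v n y - v m y) := e1
      _ ≤ C1 * (4 * (1 / (4 * (C1 + 1)))) := mul_le_mul_of_nonneg_left e5 hC1
      _ = C1 / (C1 + 1) := by field_simp
      _ ≤ 1 := by
          rw [div_le_one (by linarith)]
          linarith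
  have hvi : ∀ n, IntegrableOn (Fn (v n)) (Metric.ball x s) := fun n =>
    intOn hΩ (hvs n) hcs hsΩ Metric.ball_subset_closedBall
  refine ⟨s, 2 + 2 * H1 (Metric.ball x s) (v N) +
    ∑ n ∈ Finset.range N, H1 (Metric.ball x s) (v n), hs, hsΩ, fun n => ?_⟩
  have hsum0 : 0 ≤ ∑ n ∈ Finset.range N, H1 (Metric.ball x s) (v n) :=
    Finset.sum_nonneg fun _ _ => H1_nonneg _ _
  have hN0 := H1_nonneg (v N) (Metric.ball x s)
  rcases lt_or_ge n N with hn | hn
  · have := Finset.single_le_sum (f := fun n => H1 (Metric.ball x s) (v n))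
      (fun _ _ => H1_nonneg _ _) (Finset.mem_range.2 hn)
    linarith
  · have e1 := hbd n hn N le_rfl
    have e2 : v n = fun y => (v n y - v N y) - (-v N y) := by
      funext y; ring
    have hneg : ∀ y, Fn (fun y => -v N y) y = Fn (v N) y := by
      intro y
      unfold Fn
      rw [gr_sq, gr_sq, norm_neg]
      congr 1
      refine Finset.sum_congr rfl fun j _ => ?_
      unfold pd
      rw [fderiv_fun_neg]
      simp
    have hnegi : IntegrableOn (Fn (fun y => -v N y)) (Metric.ball x s) := by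
      have : Fn (fun y => -v N y) = Fn (v N) := funext hneg
      rw [this]
      exact hvi N
    have e3 := H1_sub hΩ (hws n N) (hvs N).neg measurableSet_ball
      (Metric.ball_subset_closedBall.trans hsΩ)
      (intOn hΩ (hws n N) hcs hsΩ Metric.ball_subset_closedBall) hnegi
    have e4 : H1 (Metric.ball x s) (fun y => -v N y) = H1 (Metric.ball x s) (v N) := by
      unfold H1
      refine setIntegral_congr_fun measurableSet_ball fun y _ => hneg y
    rw [e4, ← e2] at e3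
    linarith

end Pool.Agent.E8helper38.PMC
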